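import Mathlib

/-!
# MP_b21e19_nt: digits at both ends

Numbers `n` whose `j` highest and `k p` lowest base `p` digits are smaller than `p / 2` for the
bases `p = 3, 5, 7, 11`, where the product of the `p ^ k p` may be as large as `n / C`.
-/

set_option autoImplicit false

namespace Pool.Agent.Results.MP_b21e19_nt.BothEnds

open Filter Topology

/-- simultaneous approximation: multiples of all `log p` close to one large integer `s` -/
theorem approx (P : Finset ℕ) (hP : ∀ p ∈ P, 2 ≤ p) (ε : ℝ) (hε : 0 < ε) (B : ℕ) :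
    ∃ s : ℕ, B ≤ s ∧ ∀ p ∈ P, ∃ e : ℕ, |(s : ℝ) - e * Real.log p| < ε := by
  classical
  have hlog : ∀ p ∈ P, 0 < Real.log (p : ℝ) := by
    intro p hp
    apply Real.log_pos
    exact_mod_cast (by have := hP p hp; omega : 1 < p)
  set L : ℝ := 1 + ∑ p ∈ P, Real.log (p : ℝ) with hL
  have hLp : 0 < L := by
    have : 0 ≤ ∑ p ∈ P, Real.log (p : ℝ) := Finset.sum_nonneg fun p hp => (hlog p hp).le
    linarith
  have hle : ∀ p ∈ P, Real.log (p : ℝ) ≤ L := by
    intro p hp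
    have := Finset.single_le_sum (f := fun p : ℕ => Real.log (p : ℝ))
      (fun q hq => (hlog q hq).le) hp
    linarith
  let x : ℕ → (P → UnitAddCircle) := fun m p => (((m : ℝ) / Real.log (p : ℕ) : ℝ) : UnitAddCircle)
  obtain ⟨a, -, φ, hφ, hlim⟩ := isCompact_univ.tendsto_subseq (x := x) (fun n => Set.mem_univ _)
  obtain ⟨N, hN⟩ := Metric.cauchySeq_iff.1 hlim.cauchySeq (ε / L) (div_pos hε hLp)
  have hgrow : ∀ k : ℕ, φ N + k ≤ φ (N + k) := by
    intro k
    induction k with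
    | zero => simp
    | succ k ih =>
      have := hφ (show N + k < N + (k + 1) by omega)
      omega
  refine ⟨φ (N + B) - φ N, by have := hgrow B; omega, ?_⟩
  intro p hp
  have h1 := hN (N + B) (by omega) N le_rfl
  have h2 : dist (x (φ (N + B)) ⟨p, hp⟩) (x (φ N) ⟨p, hp⟩) < ε / L :=
    lt_of_le_of_lt (dist_le_pi_dist (x (φ (N + B))) (x (φ N)) (⟨p, hp⟩ : P)) h1
  set y : ℝ := ((φ (N + B) - φ N : ℕ) : ℝ) / Real.log p with hy
  have h3 : x (φ (N + B)) ⟨p, hp⟩ - x (φ N) ⟨p, hp⟩ = ((y : ℝ) : UnitAddCircle) := by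
    simp only [x, hy]
    rw [Nat.cast_sub (by have := hgrow B; omega), sub_div]
    rfl
  rw [dist_eq_norm, h3, UnitAddCircle.norm_eq] at h2
  have hy0 : 0 ≤ y := div_nonneg (Nat.cast_nonneg _) (hlog p hp).le
  have hr0 : 0 ≤ round y := by
    rw [round_eq]
    apply Int.floor_nonneg.2
    linarith
  refine ⟨(round y).toNat, ?_⟩
  have h4 : (((round y).toNat : ℕ) : ℝ) = (round y : ℝ) := by
    have : (((round y).toNat : ℕ) : ℤ) = round y := Int.toNat_of_nonneg hr0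
    exact_mod_cast this
  have h5 : ((φ (N + B) - φ N : ℕ) : ℝ) = y * Real.log p := by
    rw [hy]; field_simp [(hlog p hp).ne']
  rw [h4, h5, ← sub_mul, abs_mul, abs_of_pos (hlog p hp)]
  calc |y - (round y : ℝ)| * Real.log p < ε / L * Real.log p :=
        mul_lt_mul_of_pos_right h2 (hlog p hp)
    _ ≤ ε / L * L := mul_le_mul_of_nonneg_left (hle p hp) (div_pos hε hLp).le
    _ = ε := by field_simp

/-- the highest digits of a number slightly above `p ^ e` -/
theorem top_of_close {p e j n : ℕ} (hp : 3 ≤ p) (hj : p ^ j ≤ n) (h1 : p ^ e ≤ n)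
    (h2 : n * p ^ j < p ^ e * (p ^ j + 1)) {i : ℕ} (hi : i ≤ j) :
    2 * (n / p ^ (Nat.log p n - i) % p) < p := by
  have hp1 : 1 < p := by omega
  have hpj : 0 < p ^ j := Nat.pow_pos (by omega)
  have h3 : n < p ^ (e + 1) := by
    have h4 : n * p ^ j < p ^ (e + 1) * p ^ j := by
      refine lt_of_lt_of_le h2 ?_
      rw [pow_succ, mul_assoc]
      apply Nat.mul_le_mul_left
      nlinarith
    exact lt_of_mul_lt_mul_right h4 (Nat.zero_le _)
  have hlog : Nat.log p n = e := Nat.log_eq_of_pow_le_of_lt_pow h1 h3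
  have hje : j ≤ e := by
    rw [← hlog]
    exact Nat.le_log_of_pow_le hp1 hj
  rw [hlog]
  have h5 : n / p ^ (e - i) = p ^ i := by
    rw [Nat.div_eq_iff (Nat.pow_pos (by omega))]
    have h6 : p ^ i * p ^ (e - i) = p ^ e := by rw [← pow_add]; congr 1; omega
    have h7 : p ^ e = p ^ j * p ^ (e - j) := by rw [← pow_add]; congr 1; omega
    have h8 : n < p ^ e + p ^ (e - j) := by
      have h9 : n * p ^ j < (p ^ e + p ^ (e - j)) * p ^ j := by
        calc n * p ^ j < p ^ e * (p ^ j + 1) := h2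
          _ = (p ^ e + p ^ (e - j)) * p ^ j := by rw [h7]; ring
      exact lt_of_mul_lt_mul_right h9 (Nat.zero_le _)
    have h10 : p ^ (e - j) ≤ p ^ (e - i) := Nat.pow_le_pow_right (by omega) (by omega)
    constructor
    · rw [h6]; exact h1
    · rw [h6]; omega
  rw [h5]
  rcases Nat.eq_zero_or_pos i with h | h
  · subst h
    have : p ^ 0 % p ≤ p ^ 0 := Nat.mod_le _ _
    simp only [pow_zero] at this ⊢
    omega
  · have : p ^ i % p = 0 := Nat.mod_eq_zero_of_dvd (dvd_pow_self p (by omega))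
    omega

/-- numbers slightly above a real `E` that is close to a power of every `p` in `P` -/
theorem core (P : Finset ℕ) (hP : ∀ p ∈ P, 3 ≤ p) (j : ℕ) :
    ∃ C : ℕ, 0 < C ∧ ∀ B : ℕ, ∃ E : ℝ, (B : ℝ) ≤ E ∧ ∀ m r : ℕ, 0 < m → ((r : ℝ) + m) * C ≤ E →
      ∃ n : ℕ, E ≤ n ∧ (n : ℝ) ≤ 2 * E ∧ n ≡ r [MOD m] ∧
        ∀ p ∈ P, ∀ i ≤ j, 2 * (n / p ^ (Nat.log p n - i) % p) < p := by
  classical
  set D : ℕ := (1 + ∑ p ∈ P, p) ^ j with hD
  have hD1 : 1 ≤ D := Nat.one_le_pow _ _ (by omega)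
  have hpD : ∀ p ∈ P, p ^ j ≤ D := by
    intro p hp
    apply Nat.pow_le_pow_left
    have := Finset.single_le_sum (f := fun p : ℕ => p) (fun q _ => Nat.zero_le q) hp
    omega
  have hDr : (1 : ℝ) ≤ D := by exact_mod_cast hD1
  set η : ℝ := 1 / (4 * D) with hη
  have hηp : 0 < η := by positivity
  have hη4 : η ≤ 1 / 4 := by
    rw [hη]
    apply one_div_le_one_div_of_le (by norm_num)
    linarith
  have hηD : 4 * η * D = 1 := by rw [hη]; field_simp
  refine ⟨4 * D, by omega, ?_⟩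
  intro B
  obtain ⟨s, hs, happ⟩ := approx P (fun p hp => by have := hP p hp; omega)
    (Real.log (1 + η)) (Real.log_pos (by linarith)) (B + D)
  have hexp : (s : ℝ) ≤ Real.exp s := by
    have := Real.add_one_le_exp (s : ℝ)
    linarith
  have hsr : (B : ℝ) + D ≤ s := by exact_mod_cast hs
  set E : ℝ := Real.exp s with hE
  have hEp : 0 < E := Real.exp_pos _
  refine ⟨E, by linarith, ?_⟩
  intro m r hm hmr
  push_cast at hmr
  have hm0 : (0 : ℝ) < m := by exact_mod_cast hm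
  set x : ℝ := E * (1 + η) with hx
  have hxp : 0 ≤ x := by positivity
  set n : ℕ := r + m * ⌈x / m⌉₊ with hn
  have hr0 : (0 : ℝ) ≤ r := Nat.cast_nonneg _
  have hB0 : (0 : ℝ) ≤ B := Nat.cast_nonneg _
  have hn1 : x ≤ n := by
    have h1 := Nat.le_ceil (x / m)
    rw [div_le_iff₀ hm0] at h1
    rw [hn]
    push_cast
    nlinarith
  have hn2 : (n : ℝ) ≤ E * (1 + 2 * η) := by
    have h1 := (Nat.ceil_lt_add_one (div_nonneg hxp hm0.le)).le
    have h2 : (m : ℝ) * ⌈x / m⌉₊ ≤ x + m := by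
      calc (m : ℝ) * ⌈x / m⌉₊ ≤ m * (x / m + 1) := mul_le_mul_of_nonneg_left h1 hm0.le
        _ = x + m := by field_simp
    have h3 : (r : ℝ) + m ≤ η * E := by
      have h5 := mul_le_mul_of_nonneg_left hmr hηp.le
      nlinarith
    rw [hn]
    push_cast
    rw [hx] at h2
    nlinarith
  have hEn : E ≤ n := by
    have : E ≤ x := by rw [hx]; nlinarith
    linarith
  have hbig : (D : ℝ) ≤ n := by linarith
  have hbig' : D ≤ n := by exact_mod_cast hbig
  refine ⟨n, hEn, by nlinarith, ?_, ?_⟩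
  · rw [hn]
    have : r + m * ⌈x / m⌉₊ ≡ r + 0 [MOD m] := Nat.ModEq.add_left _ (by
      rw [Nat.modEq_zero_iff_dvd]; exact dvd_mul_right _ _)
    simpa using this
  intro p hp i hi
  have hp3 := hP p hp
  obtain ⟨e, he⟩ := happ p hp
  rw [abs_lt] at he
  have hp0 : (0 : ℝ) < p := by exact_mod_cast (by omega : 0 < p)
  have hpe : Real.exp (e * Real.log p) = (p : ℝ) ^ e := by
    rw [mul_comm, Real.exp_mul, Real.exp_log hp0, Real.rpow_natCast]
  have h1η : (0 : ℝ) < 1 + η := by linarith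
  have hup : (p : ℝ) ^ e ≤ E * (1 + η) := by
    rw [← hpe, hE]
    calc Real.exp (e * Real.log p) ≤ Real.exp (s + Real.log (1 + η)) :=
          Real.exp_le_exp.2 (by linarith)
      _ = Real.exp s * (1 + η) := by rw [Real.exp_add, Real.exp_log h1η]
  have hlow : E ≤ (p : ℝ) ^ e * (1 + η) := by
    rw [← hpe, hE]
    calc Real.exp s ≤ Real.exp (e * Real.log p + Real.log (1 + η)) :=
          Real.exp_le_exp.2 (by linarith)
      _ = Real.exp (e * Real.log p) * (1 + η) := by rw [Real.exp_add, Real.exp_log h1η]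
  have hpjD : ((p ^ j : ℕ) : ℝ) ≤ D := by exact_mod_cast hpD p hp
  refine top_of_close (e := e) (j := j) hp3 (le_trans (hpD p hp) hbig') ?_ ?_ hi
  · have : ((p ^ e : ℕ) : ℝ) ≤ n := by
      push_cast
      linarith
    exact_mod_cast this
  · have h1 : (n : ℝ) * (p : ℝ) ^ j < (p : ℝ) ^ e * ((p : ℝ) ^ j + 1) := by
      push_cast at hpjD
      have hpe0 : (0 : ℝ) < (p : ℝ) ^ e := by positivity
      have hpj0 : (0 : ℝ) < (p : ℝ) ^ j := by positivity
      have h2 : (n : ℝ) ≤ (p : ℝ) ^ e * (1 + η) * (1 + 2 * η) := by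
        refine le_trans hn2 ?_
        apply mul_le_mul_of_nonneg_right hlow (by linarith)
      have h3 : (1 + η) * (1 + 2 * η) < 1 + 4 * η := by nlinarith
      have h4 : (n : ℝ) < (p : ℝ) ^ e * (1 + 4 * η) := by
        calc (n : ℝ) ≤ (p : ℝ) ^ e * ((1 + η) * (1 + 2 * η)) := by
              linarith [h2, mul_assoc ((p : ℝ) ^ e) (1 + η) (1 + 2 * η)]
          _ < (p : ℝ) ^ e * (1 + 4 * η) := mul_lt_mul_of_pos_left h3 hpe0
      have h5 : (1 + 4 * η) * (p : ℝ) ^ j ≤ (p : ℝ) ^ j + 1 := by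
        have : 4 * η * (p : ℝ) ^ j ≤ 4 * η * D := mul_le_mul_of_nonneg_left hpjD (by positivity)
        linarith
      calc (n : ℝ) * (p : ℝ) ^ j < (p : ℝ) ^ e * (1 + 4 * η) * (p : ℝ) ^ j :=
            mul_lt_mul_of_pos_right h4 hpj0
        _ = (p : ℝ) ^ e * ((1 + 4 * η) * (p : ℝ) ^ j) := by ring
        _ ≤ (p : ℝ) ^ e * ((p : ℝ) ^ j + 1) := mul_le_mul_of_nonneg_left h5 hpe0.le
    exact_mod_cast h1

/-- the lowest digits only depend on the class modulo `p ^ j` -/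
theorem low_digit {p j n r i : ℕ} (h : n ≡ r [MOD p ^ j]) (hi : i < j) :
    n / p ^ i % p = r / p ^ i % p := by
  have key : ∀ a : ℕ, a / p ^ i % p = (a % p ^ j) / p ^ i % p := by
    intro a
    have h1 : p ^ j = p ^ i * p ^ (j - i) := by rw [← pow_add]; congr 1; omega
    rw [h1, Nat.mod_mul_right_div_self, Nat.mod_mod_of_dvd]
    exact dvd_pow_self p (by omega)
  rw [key n, key r, h]

/-- For every `j` there are a constant `C` and arbitrarily large real `E` such that for all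
exponents `k 3, k 5, k 7, k 11` with `3 ^ k 3 * 5 ^ k 5 * 7 ^ k 7 * 11 ^ k 11 * C ≤ E` there is an
`n` in `[E, 2 E]` for which, in each of the bases `p = 3, 5, 7, 11`, the `k p` lowest and the `j`
highest digits are smaller than `p / 2`.
(The digit of `n` at place `i` is `n / p ^ i % p`, the top place is `Nat.log p n`.) -/
theorem result (j : ℕ) : ∃ C : ℕ, 0 < C ∧ ∀ B : ℕ, ∃ E : ℝ, (B : ℝ) ≤ E ∧
    ∀ k : ℕ → ℕ, ((3 ^ k 3 * 5 ^ k 5 * 7 ^ k 7 * 11 ^ k 11 : ℕ) : ℝ) * C ≤ E →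
      ∃ n : ℕ, E ≤ n ∧ (n : ℝ) ≤ 2 * E ∧
        ∀ p ∈ ({3, 5, 7, 11} : Finset ℕ),
          (∀ i < k p, 2 * (n / p ^ i % p) < p) ∧
          (∀ i < j, 2 * (n / p ^ (Nat.log p n - i) % p) < p) := by
  have hP : ∀ p ∈ ({3, 5, 7, 11} : Finset ℕ), 3 ≤ p := by decide
  obtain ⟨C, hC, h⟩ := core {3, 5, 7, 11} hP j
  have hCr : (0 : ℝ) < C := by exact_mod_cast hC
  refine ⟨2 * C, by omega, ?_⟩
  intro B
  obtain ⟨E, hE, h⟩ := h B
  refine ⟨E, hE, ?_⟩
  intro k hk
  set m : ℕ := 3 ^ k 3 * 5 ^ k 5 * 7 ^ k 7 * 11 ^ k 11 with hm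
  have hm1 : 1 ≤ m := Nat.one_le_iff_ne_zero.2 (by positivity)
  have hm1r : (1 : ℝ) ≤ m := by exact_mod_cast hm1
  push_cast at hk
  have h0 : (C : ℝ) ≤ (m : ℝ) * C := by nlinarith
  obtain ⟨n, h1, h1', h2, h3⟩ := h m 1 (by omega) (by push_cast; nlinarith)
  refine ⟨n, h1, h1', fun p hp => ⟨?_, fun i hi => h3 p hp i hi.le⟩⟩
  intro i hi
  have hp3 := hP p hp
  have hd : p ^ k p ∣ m := by
    simp only [Finset.mem_insert, Finset.mem_singleton] at hp
    rcases hp with rfl | rfl | rfl | rfl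
    · exact ⟨5 ^ k 5 * 7 ^ k 7 * 11 ^ k 11, by rw [hm]; ring⟩
    · exact ⟨3 ^ k 3 * 7 ^ k 7 * 11 ^ k 11, by rw [hm]; ring⟩
    · exact ⟨3 ^ k 3 * 5 ^ k 5 * 11 ^ k 11, by rw [hm]; ring⟩
    · exact ⟨3 ^ k 3 * 5 ^ k 5 * 7 ^ k 7, by rw [hm]; ring⟩
  rw [low_digit (h2.of_dvd hd) hi]
  have h5 : 1 / p ^ i % p ≤ 1 := le_trans (Nat.mod_le _ _) (Nat.div_le_self _ _)
  omega

end Pool.Agent.Results.MP_b21e19_nt.BothEnds
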